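import Mathlib

set_option autoImplicit false

namespace Pool.Agent.V11268.ML

open Primrec

theorem encode_ofNat (n : ℕ) : Encodable.encode (Int.ofNat n) = 2 * n := rfl

theorem encode_negSucc (n : ℕ) : Encodable.encode (Int.negSucc n) = 2 * n + 1 := rfl

theorem primrec_toNat : Primrec (fun z : ℤ => z.toNat) := by
  have h : Primrec (fun z : ℤ => if (Encodable.encode z) % 2 = 0 then (Encodable.encode z) / 2
      else 0) := by
    refine Primrec.ite ?_ ?_ (Primrec.const 0)
    · exact Primrec.eq.comp (Primrec.nat_mod.comp Primrec.encode (Primrec.const 2))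
        (Primrec.const 0)
    · exact Primrec.nat_div.comp Primrec.encode (Primrec.const 2)
  refine h.of_eq fun z => ?_
  cases z with
  | ofNat n => rw [encode_ofNat]; simp
  | negSucc n => rw [encode_negSucc]; simp [Nat.add_mod]

theorem primrec_negToNat : Primrec (fun z : ℤ => (-z).toNat) := by
  have h : Primrec (fun z : ℤ => if (Encodable.encode z) % 2 = 0 then 0
      else (Encodable.encode z) / 2 + 1) := by
    refine Primrec.ite ?_ (Primrec.const 0) ?_
    · exact Primrec.eq.comp (Primrec.nat_mod.comp Primrec.encode (Primrec.const 2))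
        (Primrec.const 0)
    · exact Primrec.succ.comp (Primrec.nat_div.comp Primrec.encode (Primrec.const 2))
  refine h.of_eq fun z => ?_
  cases z with
  | ofNat n => rw [encode_ofNat]; simp
  | negSucc n =>
    rw [encode_negSucc]
    have : (2 * n + 1) % 2 = 1 := by omega
    rw [this, if_neg (by norm_num)]
    have : (2 * n + 1) / 2 = n := by omega
    rw [this]
    rfl

theorem primrec_sub : Primrec₂ (fun a b : ℕ => (a : ℤ) - b) := by
  have h : Primrec (fun p : ℕ × ℕ => if p.2 ≤ p.1 then Denumerable.ofNat ℤ (2 * (p.1 - p.2))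
      else Denumerable.ofNat ℤ (2 * (p.2 - p.1 - 1) + 1)) := by
    have h12 : Primrec (fun p : ℕ × ℕ => p.1 - p.2) := Primrec.nat_sub.comp Primrec.fst Primrec.snd
    have h21 : Primrec (fun p : ℕ × ℕ => p.2 - p.1) := Primrec.nat_sub.comp Primrec.snd Primrec.fst
    refine Primrec.ite ?_ ?_ ?_
    · exact Primrec.nat_le.comp Primrec.snd Primrec.fst
    · exact (Primrec.ofNat ℤ).comp (Primrec.nat_mul.comp (Primrec.const 2) h12)
    · exact (Primrec.ofNat ℤ).comp (Primrec.succ.comp (Primrec.nat_mul.comp (Primrec.const 2)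
        (Primrec.nat_sub.comp h21 (Primrec.const 1))))
  refine h.of_eq fun p => ?_
  split_ifs with hle
  · have e : 2 * (p.1 - p.2) = Encodable.encode (Int.ofNat (p.1 - p.2)) := rfl
    rw [e, Denumerable.ofNat_encode]
    simp; omega
  · have e : 2 * (p.2 - p.1 - 1) + 1 = Encodable.encode (Int.negSucc (p.2 - p.1 - 1)) := rfl
    rw [e, Denumerable.ofNat_encode, Int.negSucc_eq]
    change -(((p.2 - p.1 - 1 : ℕ) : ℤ) + 1) = (p.1 : ℤ) - (p.2 : ℤ)
    omega

theorem primrec_add : Primrec₂ (fun a b : ℤ => a + b) := by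
  have h : Primrec₂ (fun a b : ℤ => ((a.toNat + b.toNat : ℕ) : ℤ) - ((-a).toNat + (-b).toNat : ℕ)) :=
    primrec_sub.comp₂
      (Primrec.nat_add.comp₂ (primrec_toNat.comp₂ Primrec₂.left) (primrec_toNat.comp₂ Primrec₂.right))
      (Primrec.nat_add.comp₂ (primrec_negToNat.comp₂ Primrec₂.left)
        (primrec_negToNat.comp₂ Primrec₂.right))
  refine h.of_eq fun a b => ?_
  omega

theorem primrec_mul : Primrec₂ (fun a b : ℤ => a * b) := by
  have h : Primrec₂ (fun a b : ℤ => ((a.toNat * b.toNat + (-a).toNat * (-b).toNat : ℕ) : ℤ) -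
      ((a.toNat * (-b).toNat + (-a).toNat * b.toNat : ℕ) : ℤ)) := by
    have l1 := primrec_toNat.comp₂ (Primrec₂.left (α := ℤ) (β := ℤ))
    have r1 := primrec_toNat.comp₂ (Primrec₂.right (α := ℤ) (β := ℤ))
    have l2 := primrec_negToNat.comp₂ (Primrec₂.left (α := ℤ) (β := ℤ))
    have r2 := primrec_negToNat.comp₂ (Primrec₂.right (α := ℤ) (β := ℤ))
    exact primrec_sub.comp₂
      (Primrec.nat_add.comp₂ (Primrec.nat_mul.comp₂ l1 r1) (Primrec.nat_mul.comp₂ l2 r2))
      (Primrec.nat_add.comp₂ (Primrec.nat_mul.comp₂ l1 r2) (Primrec.nat_mul.comp₂ l2 r1))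
  refine h.of_eq fun a b => ?_
  have ha : (a : ℤ) = (a.toNat : ℤ) - ((-a).toNat : ℤ) := by omega
  have hb : (b : ℤ) = (b.toNat : ℤ) - ((-b).toNat : ℤ) := by omega
  push_cast
  conv_rhs => rw [ha, hb]
  ring

theorem primrec_natAbs : Primrec (fun z : ℤ => z.natAbs) := by
  have h : Primrec (fun z : ℤ => z.toNat + (-z).toNat) :=
    Primrec.nat_add.comp primrec_toNat primrec_negToNat
  refine h.of_eq fun z => ?_
  omega

end Pool.Agent.V11268.ML
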