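import Mathlib

set_option autoImplicit false

namespace Pool.Agent.V11268.ML

open Polynomial IsDedekindDomain NumberField

/-- The length of an integer polynomial: the sum of the absolute values of its coefficients. -/
noncomputable def len (F : ℤ[X]) : ℕ := F.sum fun _ c => c.natAbs

theorem len_eq_range (F : ℤ[X]) (n : ℕ) (hn : F.natDegree < n) :
    len F = ∑ i ∈ Finset.range n, (F.coeff i).natAbs := by
  rw [len, Polynomial.sum_over_range' F (fun _ => rfl) n hn]

theorem natAbs_coeff_le_len (F : ℤ[X]) (i : ℕ) : (F.coeff i).natAbs ≤ len F := by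
  rw [len_eq_range F (F.natDegree + 1 + i) (by omega)]
  by_cases h : i < F.natDegree + 1 + i
  · exact Finset.single_le_sum (f := fun i => (F.coeff i).natAbs) (fun _ _ => Nat.zero_le _)
      (Finset.mem_range.mpr h)
  · omega

theorem len_eq_zero (F : ℤ[X]) : len F = 0 ↔ F = 0 := by
  constructor
  · intro h
    ext i
    have := natAbs_coeff_le_len F i
    rw [h] at this
    simpa using this
  · rintro rfl; simp [len]

theorem norm_int (c : ℤ) : ‖(c : ℂ)‖ = (c.natAbs : ℝ) := by
  rw [Complex.norm_intCast, Nat.cast_natAbs, Int.cast_abs]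

/-- Bound for the value of an integer polynomial. -/
theorem norm_aeval_le (F : ℤ[X]) (z : ℂ) (D : ℕ) (hD : F.natDegree ≤ D) :
    ‖aeval z F‖ ≤ len F * (max 1 ‖z‖) ^ D := by
  rw [aeval_eq_sum_range' (Nat.lt_succ_of_le hD), len_eq_range F (D + 1) (Nat.lt_succ_of_le hD)]
  refine (norm_sum_le _ _).trans ?_
  push_cast
  rw [Finset.sum_mul]
  refine Finset.sum_le_sum fun i hi => ?_
  rw [Finset.mem_range] at hi
  rw [zsmul_eq_mul, norm_mul, norm_pow, norm_int]
  apply mul_le_mul_of_nonneg_left _ (Nat.cast_nonneg _)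
  calc ‖z‖ ^ i ≤ (max 1 ‖z‖) ^ i := pow_le_pow_left₀ (norm_nonneg _) (le_max_right _ _) i
    _ ≤ (max 1 ‖z‖) ^ D := pow_le_pow_right₀ (le_max_left _ _) (by omega)

/-- Root bound. -/
theorem root_bound (P : ℤ[X]) (hP : P ≠ 0) (z : ℂ) (h : aeval z P = 0) :
    (P.leadingCoeff.natAbs : ℝ) * max 1 ‖z‖ ≤ len P := by
  have hlc : (P.leadingCoeff.natAbs : ℝ) ≤ len P := by
    have := natAbs_coeff_le_len P P.natDegree
    exact_mod_cast this
  rcases le_or_gt ‖z‖ 1 with h1 | h1
  · rw [max_eq_left h1, mul_one]; exact hlc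
  · rw [max_eq_right h1.le]
    obtain ⟨d, hd⟩ : ∃ d, P.natDegree = d + 1 := by
      rcases Nat.eq_zero_or_eq_succ_pred P.natDegree with h0 | h0
      · exfalso
        rw [Polynomial.eq_C_of_natDegree_eq_zero h0, aeval_C] at h
        have : P.coeff 0 = 0 := by simpa using h
        apply hP
        rw [Polynomial.eq_C_of_natDegree_eq_zero h0, this, C_0]
      · exact ⟨_, h0⟩
    have hsum := h
    rw [aeval_eq_sum_range' (n := d + 2) (by omega), Finset.sum_range_succ] at hsum
    have hlead : P.coeff (d + 1) = P.leadingCoeff := by rw [leadingCoeff, hd]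
    rw [hlead] at hsum
    have h2 : ‖P.leadingCoeff • z ^ (d + 1)‖ = ‖∑ i ∈ Finset.range (d + 1), P.coeff i • z ^ i‖ := by
      rw [← norm_neg (∑ i ∈ Finset.range (d + 1), P.coeff i • z ^ i)]
      congr 1
      linear_combination hsum
    have hz0 : 0 < ‖z‖ := by linarith
    have h3 : ‖∑ i ∈ Finset.range (d + 1), P.coeff i • z ^ i‖ ≤ len P * ‖z‖ ^ d := by
      refine (norm_sum_le _ _).trans ?_
      have h4 : ∀ i ∈ Finset.range (d + 1), ‖P.coeff i • z ^ i‖ ≤
          ((P.coeff i).natAbs : ℝ) * ‖z‖ ^ d := by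
        intro i hi
        rw [Finset.mem_range] at hi
        rw [zsmul_eq_mul, norm_mul, norm_pow, norm_int]
        exact mul_le_mul_of_nonneg_left (pow_le_pow_right₀ h1.le (by omega)) (Nat.cast_nonneg _)
      refine (Finset.sum_le_sum h4).trans ?_
      rw [← Finset.sum_mul]
      apply mul_le_mul_of_nonneg_right _ (by positivity)
      have : ∑ i ∈ Finset.range (d + 1), (P.coeff i).natAbs ≤ len P := by
        rw [len_eq_range P (d + 2) (by omega)]
        exact Finset.sum_le_sum_of_subset (Finset.range_subset_range.mpr (by omega))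
      exact_mod_cast this
    rw [← h2, zsmul_eq_mul, norm_mul, norm_pow, norm_int, pow_succ] at h3
    have h6 : (P.leadingCoeff.natAbs : ℝ) * ‖z‖ * ‖z‖ ^ d ≤ len P * ‖z‖ ^ d := by linarith
    exact le_of_mul_le_mul_right h6 (pow_pos hz0 d)

/-- If `P` is irreducible with non-unit leading coefficient, then a root in a number field is
large at some finite place. -/
theorem exists_place {K : Type*} [Field K] [NumberField K] (P : ℤ[X]) (hP : Irreducible P)
    (hlc : ¬ IsUnit P.leadingCoeff) (α : K) (hα : aeval α P = 0) :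
    ∃ v : HeightOneSpectrum (𝓞 K), 1 < v.valuation K α := by
  by_contra hcon
  push Not at hcon
  obtain ⟨y, hy⟩ := HeightOneSpectrum.mem_integers_of_valuation_le_one K α hcon
  have hint : IsIntegral ℤ α := by rw [← hy]; exact RingOfIntegers.isIntegral_coe y
  exact hlc ((minpoly.IsIntegrallyClosed.isIntegral_iff_isUnit_leadingCoeff hP hα).mp hint)

/-- Values of integer polynomials at a place where `α` is large. -/
theorem valuation_aeval_le {K : Type*} [Field K] [NumberField K] (v : HeightOneSpectrum (𝓞 K))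
    (α : K) (hα : 1 ≤ v.valuation K α) (B : ℤ[X]) (b : ℕ) (hB : B.natDegree ≤ b) :
    v.valuation K (aeval α B) ≤ (v.valuation K α) ^ b := by
  rw [aeval_eq_sum_range' (Nat.lt_succ_of_le hB)]
  apply Valuation.map_sum_le
  intro i hi
  rw [Finset.mem_range] at hi
  rw [zsmul_eq_mul, map_mul, map_pow]
  have h1 : v.valuation K ((B.coeff i : ℤ) : K) ≤ 1 := by
    have := v.valuation_le_one (K := K) ((B.coeff i : ℤ) : 𝓞 K)
    simpa using this
  calc v.valuation K ((B.coeff i : ℤ) : K) * v.valuation K α ^ i ≤ 1 * v.valuation K α ^ i := by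
        gcongr
    _ = v.valuation K α ^ i := one_mul _
    _ ≤ v.valuation K α ^ b := pow_le_pow_right₀ hα (by omega)

/-- The value at the root of the upper part of a multiple with a gap of length `g`. -/
theorem valuation_gap {K : Type*} [Field K] [NumberField K] (v : HeightOneSpectrum (𝓞 K))
    (α : K) (hα : 1 < v.valuation K α) (A B : ℤ[X]) (b g : ℕ) (hB : B.natDegree ≤ b)
    (h : α ^ (b + g) * aeval α A + aeval α B = 0) :
    v.valuation K (aeval α A) ≤ WithZero.exp (-(g : ℤ)) := by
  have hα0 : v.valuation K α ≠ 0 := by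
    intro h0; rw [h0] at hα; exact not_lt_of_ge zero_le_one hα
  have h1 : v.valuation K α ^ (b + g) * v.valuation K (aeval α A) =
      v.valuation K (aeval α B) := by
    rw [← map_pow, ← map_mul, ← Valuation.map_neg _ (aeval α B)]
    congr 1
    linear_combination h
  have h2 := valuation_aeval_le v α hα.le B b hB
  rw [← h1, pow_add, mul_assoc] at h2
  have h3 : v.valuation K α ^ g * v.valuation K (aeval α A) ≤ 1 := by
    have h4 : v.valuation K α ^ b * (v.valuation K α ^ g * v.valuation K (aeval α A)) ≤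
        v.valuation K α ^ b * 1 := by rw [mul_one]; exact h2
    exact le_of_mul_le_mul_left h4 (zero_lt_iff.mpr (pow_ne_zero b hα0))
  have h5 : WithZero.exp (1 : ℤ) ≤ v.valuation K α := by
    rw [← WithZero.exp_log hα0, WithZero.exp_le_exp]
    have : WithZero.log (1 : WithZero (Multiplicative ℤ)) < WithZero.log (v.valuation K α) :=
      (WithZero.log_lt_log one_ne_zero hα0).mpr hα
    rw [WithZero.log_one] at this
    omega
  have h6 : WithZero.exp (g : ℤ) * v.valuation K (aeval α A) ≤ 1 := by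
    refine le_trans ?_ h3
    gcongr
    calc WithZero.exp (g : ℤ) = (WithZero.exp (1 : ℤ)) ^ g := by
          rw [← WithZero.exp_nsmul]; simp
      _ ≤ _ := pow_le_pow_left₀ zero_le h5 g
  calc v.valuation K (aeval α A) = WithZero.exp (-(g : ℤ)) *
        (WithZero.exp (g : ℤ) * v.valuation K (aeval α A)) := by
        rw [← mul_assoc, ← WithZero.exp_add]; simp
    _ ≤ WithZero.exp (-(g : ℤ)) * 1 := by gcongr
    _ = _ := mul_one _

/-- The gap principle in a number field. -/
theorem gap_field {K : Type*} [Field K] [NumberField K] (P : ℤ[X]) (hP : Irreducible P)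
    (hlc : ¬ IsUnit P.leadingCoeff) (α : K) (hα : aeval α P = 0) (A B : ℤ[X]) (b g D : ℕ)
    (hB : B.natDegree ≤ b) (hA : A.natDegree ≤ D)
    (h : α ^ (b + g) * aeval α A + aeval α B = 0) (hne : aeval α A ≠ 0) :
    2 ^ g ≤ (len A * len P ^ D) ^ (Module.finrank ℚ K) := by
  obtain ⟨v, hv⟩ := exists_place P hP hlc α hα
  have hval := valuation_gap v α hv A B b g hB h
  have hP0 : P ≠ 0 := hP.ne_zero
  have ha0 : (P.leadingCoeff : K) ≠ 0 := by
    exact_mod_cast leadingCoeff_ne_zero.mpr hP0
  -- the integer `x`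
  have haα : IsIntegral ℤ ((P.leadingCoeff : K) * α) := by
    have := isIntegral_leadingCoeff_smul P α hα
    rwa [zsmul_eq_mul] at this
  have hx : IsIntegral ℤ ((P.leadingCoeff : K) ^ D * aeval α A) := by
    rw [aeval_eq_sum_range' (Nat.lt_succ_of_le hA), Finset.mul_sum]
    refine IsIntegral.sum _ fun i hi => ?_
    rw [Finset.mem_range] at hi
    have e : (P.leadingCoeff : K) ^ D * (A.coeff i • α ^ i) =
        ((A.coeff i : ℤ) : K) * ((P.leadingCoeff : ℤ) : K) ^ (D - i) *
        ((P.leadingCoeff : K) * α) ^ i := by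
      have e2 : (P.leadingCoeff : K) ^ D = (P.leadingCoeff : K) ^ (D - i) *
          (P.leadingCoeff : K) ^ i := by
        rw [← pow_add]; congr 1; omega
      rw [zsmul_eq_mul, e2, mul_pow]; ring
    rw [e]
    have i1 : IsIntegral ℤ ((A.coeff i : ℤ) : K) := by
      simpa using (isIntegral_algebraMap (R := ℤ) (A := K) (x := A.coeff i))
    have i2 : IsIntegral ℤ ((P.leadingCoeff : ℤ) : K) := by
      simpa using (isIntegral_algebraMap (R := ℤ) (A := K) (x := P.leadingCoeff))
    exact (i1.mul (i2.pow _)).mul (haα.pow _)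
  set x : 𝓞 K := ⟨_, hx⟩ with hxdef
  have hxK : (algebraMap (𝓞 K) K x) = (P.leadingCoeff : K) ^ D * aeval α A := rfl
  have hx0 : x ≠ 0 := by
    intro h0
    have : (algebraMap (𝓞 K) K x) = 0 := by rw [h0, map_zero]
    rw [hxK] at this
    exact mul_ne_zero (pow_ne_zero _ ha0) hne this
  have hmem : x ∈ v.asIdeal ^ g := by
    rw [← v.intValuation_le_pow_iff_mem, ← v.valuation_of_algebraMap (K := K)]
    change v.valuation K (algebraMap (𝓞 K) K x) ≤ _
    rw [hxK, map_mul, map_pow]
    have h1 : v.valuation K (P.leadingCoeff : K) ≤ 1 := by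
      have := v.valuation_le_one (K := K) ((P.leadingCoeff : ℤ) : 𝓞 K)
      simpa using this
    calc v.valuation K (P.leadingCoeff : K) ^ D * v.valuation K (aeval α A)
        ≤ 1 * v.valuation K (aeval α A) := by
          gcongr
          exact pow_le_one₀ zero_le h1
      _ ≤ _ := by rw [one_mul]; exact hval
  have hdvd : (Ideal.absNorm v.asIdeal) ^ g ∣ (Algebra.norm ℤ x).natAbs := by
    rw [← Ideal.absNorm_span_singleton, ← map_pow]
    exact Ideal.absNorm_dvd_absNorm_of_le ((Ideal.span_singleton_le_iff_mem _).mpr hmem)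
  have hnormne : (Algebra.norm ℤ x).natAbs ≠ 0 := by
    rw [Int.natAbs_ne_zero]; exact Algebra.norm_ne_zero_iff.mpr hx0
  have h2 : 2 ≤ Ideal.absNorm v.asIdeal := by
    have h0 : Ideal.absNorm v.asIdeal ≠ 0 := by
      rw [Ne, Ideal.absNorm_eq_zero_iff]; exact v.ne_bot
    have h1 : Ideal.absNorm v.asIdeal ≠ 1 := by
      rw [Ne, Ideal.absNorm_eq_one_iff]; exact v.isPrime.ne_top
    omega
  have h3 : 2 ^ g ≤ (Algebra.norm ℤ x).natAbs :=
    (Nat.pow_le_pow_left h2 g).trans (Nat.le_of_dvd (Nat.pos_of_ne_zero hnormne) hdvd)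
  refine h3.trans ?_
  -- the archimedean bound
  have h4 : ((Algebra.norm ℤ x).natAbs : ℝ) ≤ ((len A * len P ^ D : ℕ) : ℝ) ^ Module.finrank ℚ K := by
    have e1 : ((Algebra.norm ℤ x).natAbs : ℝ) = ‖((Algebra.norm ℤ x : ℤ) : ℂ)‖ := (norm_int _).symm
    have e2 : ((Algebra.norm ℤ x : ℤ) : ℂ) = algebraMap ℚ ℂ (Algebra.norm ℚ (algebraMap (𝓞 K) K x)) := by
      rw [← Algebra.coe_norm_int]
      simp
    rw [e1, e2, Algebra.norm_eq_prod_embeddings ℚ ℂ, norm_prod]
    rw [← AlgHom.card ℚ K ℂ, ← Finset.card_univ, ← Finset.prod_const]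
    refine Finset.prod_le_prod (fun _ _ => norm_nonneg _) fun σ _ => ?_
    rw [hxK, map_mul, map_pow, norm_mul, norm_pow]
    have e3 : σ (P.leadingCoeff : K) = ((P.leadingCoeff : ℤ) : ℂ) := by simp
    have e4 : σ (aeval α A) = aeval (σ α) A :=
      (Polynomial.aeval_algHom_apply (σ.restrictScalars ℤ) α A).symm
    have e5 : aeval (σ α) P = 0 := by
      have : σ (aeval α P) = aeval (σ α) P :=
        (Polynomial.aeval_algHom_apply (σ.restrictScalars ℤ) α P).symm
      rw [← this, hα, map_zero]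
    rw [e3, e4, norm_int]
    have h5 := norm_aeval_le A (σ α) D hA
    have h6 := root_bound P hP0 (σ α) e5
    push_cast
    calc (P.leadingCoeff.natAbs : ℝ) ^ D * ‖aeval (σ α) A‖
        ≤ (P.leadingCoeff.natAbs : ℝ) ^ D * (len A * (max 1 ‖σ α‖) ^ D) := by gcongr
      _ = len A * ((P.leadingCoeff.natAbs : ℝ) * max 1 ‖σ α‖) ^ D := by rw [mul_pow]; ring
      _ ≤ len A * (len P : ℝ) ^ D := by gcongr
  exact_mod_cast h4

end Pool.Agent.V11268.ML
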