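import Mathlib
import Pool.Agent.V11268.ML.Gap

set_option autoImplicit false

namespace Pool.Agent.V11268.ML

open Polynomial

theorem gap (P : ℤ[X]) (hP : Irreducible P) (hdeg : P.natDegree ≠ 0)
    (hlc : ¬ IsUnit P.leadingCoeff) (A B : ℤ[X]) (b g D : ℕ)
    (hB : B.natDegree ≤ b) (hA : A.natDegree ≤ D)
    (h : P ∣ X ^ (b + g) * A + B) (hne : ¬ P ∣ A) :
    2 ^ g ≤ (len A * len P ^ D) ^ P.natDegree := by
  have hprim : P.IsPrimitive := hP.isPrimitive hdeg
  have hPQ : Irreducible (P.map (Int.castRingHom ℚ)) :=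
    (IsPrimitive.Int.irreducible_iff_irreducible_map_cast hprim).mp hP
  have : Fact (Irreducible (P.map (Int.castRingHom ℚ))) := ⟨hPQ⟩
  let K := AdjoinRoot (P.map (Int.castRingHom ℚ))
  have : CharZero K := algebraRat.charZero K
  have : FiniteDimensional ℚ K := (AdjoinRoot.powerBasis hPQ.ne_zero).finite
  have : NumberField K := {}
  let α : K := AdjoinRoot.root (P.map (Int.castRingHom ℚ))
  have hev : ∀ Q : ℤ[X], aeval α Q = AdjoinRoot.mk (P.map (Int.castRingHom ℚ))
      (Q.map (Int.castRingHom ℚ)) := by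
    intro Q
    rw [← AdjoinRoot.aeval_eq]
    change aeval α Q = aeval α (Q.map (algebraMap ℤ ℚ))
    rw [aeval_map_algebraMap]
  have hα : aeval α P = 0 := by
    rw [hev, AdjoinRoot.mk_self]
  have hfin : Module.finrank ℚ K = P.natDegree := by
    rw [(AdjoinRoot.powerBasis hPQ.ne_zero).finrank, AdjoinRoot.powerBasis_dim,
      natDegree_map_eq_of_injective (RingHom.injective_int _)]
  rw [← hfin]
  refine gap_field P hP hlc α hα A B b g D hB hA ?_ ?_
  · obtain ⟨Q, hQ⟩ := h
    have := congrArg (aeval α) hQ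
    rw [map_add, map_mul, map_pow, aeval_X, map_mul, hα, zero_mul] at this
    exact this
  · intro h0
    apply hne
    have h1 := (hev A).symm.trans h0
    rw [AdjoinRoot.mk_eq_zero] at h1
    exact (IsPrimitive.Int.dvd_iff_map_cast_dvd_map_cast P A hprim).mpr h1

/-- A nonzero multiple of `P` of smallest length. -/
def IsMinMul (P F : ℤ[X]) : Prop := F ≠ 0 ∧ P ∣ F ∧ ∀ T : ℤ[X], P * T ≠ 0 → len F ≤ len (P * T)

/-- The part of `F` in degrees `≥ k`, divided by `X ^ k`. -/
noncomputable def hi (F : ℤ[X]) (k : ℕ) : ℤ[X] :=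
  ∑ i ∈ Finset.range (F.natDegree + 1), C (F.coeff (i + k)) * X ^ i

/-- The part of `F` in degrees `< k`. -/
noncomputable def lo (F : ℤ[X]) (k : ℕ) : ℤ[X] := ∑ i ∈ Finset.range k, C (F.coeff i) * X ^ i

theorem coeff_lo (F : ℤ[X]) (k n : ℕ) : (lo F k).coeff n = if n < k then F.coeff n else 0 := by
  rw [lo, finsetSum_coeff]
  simp only [coeff_C_mul, coeff_X_pow, mul_ite, mul_one, mul_zero]
  rw [Finset.sum_ite_eq]
  simp

theorem coeff_hi (F : ℤ[X]) (k n : ℕ) : (hi F k).coeff n = F.coeff (n + k) := by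
  rw [hi, finsetSum_coeff]
  simp only [coeff_C_mul, coeff_X_pow, mul_ite, mul_one, mul_zero]
  rw [Finset.sum_ite_eq]
  split_ifs with h
  · rfl
  · rw [Finset.mem_range] at h
    rw [coeff_eq_zero_of_natDegree_lt (by omega)]

theorem hi_add_lo (F : ℤ[X]) (k : ℕ) : X ^ k * hi F k + lo F k = F := by
  ext n
  rw [coeff_add, coeff_lo, coeff_X_pow_mul', coeff_hi]
  split_ifs with h1 h2 h2
  · omega
  · rw [add_zero]; congr 1; omega
  · rw [zero_add]
  · omega

theorem len_hi_add_lo (F : ℤ[X]) (k : ℕ) : len F = len (hi F k) + len (lo F k) := by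
  have h3 : (lo F k).natDegree < k + 1 := by
    refine Nat.lt_succ_of_le ?_
    rw [natDegree_le_iff_coeff_eq_zero]
    intro n hn
    rw [coeff_lo, if_neg (by omega)]
  have h4 : (hi F k).natDegree < F.natDegree + 1 := by
    refine Nat.lt_succ_of_le ?_
    rw [natDegree_le_iff_coeff_eq_zero]
    intro n hn
    rw [coeff_hi, coeff_eq_zero_of_natDegree_lt (by omega)]
  have e1 : len (lo F k) = ∑ i ∈ Finset.range k, (F.coeff i).natAbs := by
    rw [len_eq_range (lo F k) (k + 1) h3, Finset.sum_range_succ, coeff_lo, if_neg (lt_irrefl k),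
      Int.natAbs_zero, add_zero]
    refine Finset.sum_congr rfl fun i hi => ?_
    rw [Finset.mem_range] at hi
    rw [coeff_lo, if_pos hi]
  have e2 : len (hi F k) = ∑ i ∈ Finset.range (F.natDegree + 1), (F.coeff (k + i)).natAbs := by
    rw [len_eq_range (hi F k) (F.natDegree + 1) h4]
    refine Finset.sum_congr rfl fun i _ => ?_
    rw [coeff_hi, add_comm]
  rw [e1, e2, len_eq_range F (k + (F.natDegree + 1)) (by omega), Finset.sum_range_add, add_comm]

theorem not_dvd_X_pow (P : ℤ[X]) (hP : Irreducible P) (hlc : ¬ IsUnit P.leadingCoeff) (k : ℕ) :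
    ¬ P ∣ X ^ k := by
  intro h
  have h1 : P ∣ X := hP.prime.dvd_of_dvd_pow h
  obtain ⟨Q, hQ⟩ := h1
  have := congrArg leadingCoeff hQ
  rw [leadingCoeff_X, leadingCoeff_mul] at this
  exact hlc (IsUnit.of_mul_eq_one _ this.symm)

/-- The degree bound for minimum-length multiples with nonzero constant term. -/
theorem degree_bound (P : ℤ[X]) (hP : Irreducible P) (hdeg : P.natDegree ≠ 0)
    (hlc : ¬ IsUnit P.leadingCoeff) (F : ℤ[X]) (hF : IsMinMul P F) (h0 : F.coeff 0 ≠ 0) :
    F.natDegree < (1 + P.natDegree * len P) ^ len P := by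
  by_contra hcon
  push Not at hcon
  obtain ⟨hF0, hPF, hmin⟩ := hF
  set N := F.natDegree with hN
  set d := P.natDegree with hd
  set L := len P with hL
  have hFL : len F ≤ L := by
    have := hmin 1 (by rw [mul_one]; exact hP.ne_zero)
    rwa [mul_one] at this
  have hL1 : 1 ≤ L := by
    rw [Nat.one_le_iff_ne_zero, Ne, hL, len_eq_zero]; exact hP.ne_zero
  have hM : ∀ j, j ≤ L → (1 + d * L) ^ j ≤ N := fun j hj =>
    (Nat.pow_le_pow_right (by omega) hj).trans hcon
  -- each block contains a nonzero coefficient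
  have hblock : ∀ j, j < L → ∃ e, N - (1 + d * L) ^ (j + 1) < e ∧ e ≤ N - (1 + d * L) ^ j ∧
      F.coeff e ≠ 0 := by
    intro j hj
    by_contra hno
    push Not at hno
    set M := (1 + d * L) ^ j with hMdef
    have hM1 : 1 ≤ M := Nat.one_le_pow _ _ (by omega)
    have hMs : (1 + d * L) ^ (j + 1) = M * (1 + d * L) := by rw [pow_succ]
    have hMN : M * (1 + d * L) ≤ N := by rw [← hMs]; exact hM (j + 1) (by omega)
    rw [hMs] at hno
    have hexp : M * (1 + d * L) = M + M * (d * L) := by ring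
    rw [hexp] at hno hMN
    set g := M * (d * L) + 1 with hg
    -- cut at `k = N - M + 1`, `b = N - M (1 + d L)`
    have hk : N - M + 1 = (N - (M + M * (d * L))) + g := by omega
    have hdecomp := hi_add_lo F (N - M + 1)
    have hlen := len_hi_add_lo F (N - M + 1)
    have hlo : (lo F (N - M + 1)).natDegree ≤ N - (M + M * (d * L)) := by
      rw [natDegree_le_iff_coeff_eq_zero]
      intro n hn
      rw [coeff_lo]
      split_ifs with h
      · exact hno n hn (by omega)
      · rfl
    have hhi : (hi F (N - M + 1)).natDegree ≤ M - 1 := by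
      rw [natDegree_le_iff_coeff_eq_zero]
      intro n hn
      rw [coeff_hi, coeff_eq_zero_of_natDegree_lt (by omega)]
    have hlo0 : (lo F (N - M + 1)).coeff 0 ≠ 0 := by
      rw [coeff_lo, if_pos (by omega)]; exact h0
    have hhi0 : hi F (N - M + 1) ≠ 0 := by
      intro hz
      have : (hi F (N - M + 1)).coeff (M - 1) = 0 := by rw [hz, coeff_zero]
      rw [coeff_hi] at this
      have e : M - 1 + (N - M + 1) = N := by omega
      rw [e] at this
      exact (leadingCoeff_ne_zero.mpr hF0) this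
    have hlo1 : 1 ≤ len (lo F (N - M + 1)) := by
      rw [Nat.one_le_iff_ne_zero, Ne, len_eq_zero]
      intro hz; rw [hz, coeff_zero] at hlo0; exact hlo0 rfl
    have hnd : ¬ P ∣ hi F (N - M + 1) := by
      rintro ⟨T, hT⟩
      have := hmin T (by rw [← hT]; exact hhi0)
      rw [← hT] at this
      omega
    have hgap := gap P hP hdeg hlc (hi F (N - M + 1)) (lo F (N - M + 1))
      (N - (M + M * (d * L))) g (M - 1) hlo hhi (by rw [← hk, hdecomp]; exact hPF) hnd
    have hhiL : len (hi F (N - M + 1)) ≤ L := by omega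
    have h2 : 2 ^ g ≤ 2 ^ (M * (d * L)) := by
      refine hgap.trans ?_
      calc (len (hi F (N - M + 1)) * L ^ (M - 1)) ^ d ≤ (L * L ^ (M - 1)) ^ d := by gcongr
        _ = L ^ (M * d) := by
            rw [← pow_succ', ← pow_mul]; congr 2; omega
        _ ≤ (2 ^ L) ^ (M * d) := Nat.pow_le_pow_left Nat.lt_two_pow_self.le _
        _ = 2 ^ (M * (d * L)) := by rw [← pow_mul]; congr 1; ring
    have h3 := (Nat.pow_le_pow_iff_right (by norm_num : 1 < 2)).mp h2
    omega
  -- count
  have hcount : ∀ j, j ≤ L → j + 1 ≤ ∑ e ∈ Finset.Ioc (N - (1 + d * L) ^ j) N,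
      (F.coeff e).natAbs := by
    intro j
    induction j with
    | zero =>
      intro _
      have h1 : 1 ≤ N := hM 0 (by omega)
      have hmem : N ∈ Finset.Ioc (N - (1 + d * L) ^ 0) N := by
        rw [Finset.mem_Ioc, pow_zero]; omega
      have h2 : 1 ≤ (F.coeff N).natAbs := by
        rw [Nat.one_le_iff_ne_zero, Int.natAbs_ne_zero]
        exact leadingCoeff_ne_zero.mpr hF0
      rw [zero_add]
      exact h2.trans (Finset.single_le_sum (f := fun e => (F.coeff e).natAbs)
        (fun _ _ => Nat.zero_le _) hmem)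
    | succ j ih =>
      intro hj
      obtain ⟨e, he1, he2, he3⟩ := hblock j (by omega)
      have hle : (1 + d * L) ^ j ≤ (1 + d * L) ^ (j + 1) := Nat.pow_le_pow_right (by omega) (by omega)
      have hsplit : Finset.Ioc (N - (1 + d * L) ^ (j + 1)) N =
          Finset.Ioc (N - (1 + d * L) ^ (j + 1)) (N - (1 + d * L) ^ j) ∪
          Finset.Ioc (N - (1 + d * L) ^ j) N := by
        rw [Finset.Ioc_union_Ioc_eq_Ioc (by omega) (by omega)]
      rw [hsplit, Finset.sum_union (Finset.Ioc_disjoint_Ioc_of_le le_rfl)]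
      have h1 := ih (by omega)
      have h2 : 1 ≤ (F.coeff e).natAbs := by
        rw [Nat.one_le_iff_ne_zero, Int.natAbs_ne_zero]; exact he3
      have h3 := Finset.single_le_sum (f := fun e => (F.coeff e).natAbs)
        (fun _ _ => Nat.zero_le _)
        (Finset.mem_Ioc.mpr ⟨he1, he2⟩ : e ∈ Finset.Ioc (N - (1 + d * L) ^ (j + 1))
          (N - (1 + d * L) ^ j))
      have h4 : (F.coeff e).natAbs ≤ ∑ e ∈ Finset.Ioc (N - (1 + d * L) ^ (j + 1))
          (N - (1 + d * L) ^ j), (F.coeff e).natAbs := h3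
      omega
  have hfin := hcount L le_rfl
  have hle : ∑ e ∈ Finset.Ioc (N - (1 + d * L) ^ L) N, (F.coeff e).natAbs ≤ len F := by
    rw [len_eq_range F (N + 1) (by omega)]
    apply Finset.sum_le_sum_of_subset
    intro e he
    rw [Finset.mem_Ioc] at he
    rw [Finset.mem_range]; omega
  omega

end Pool.Agent.V11268.ML
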