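import Mathlib
import Pool.Agent.V11268.ML.IntRec
import Pool.Agent.V11268.ML.Deg

set_option autoImplicit false

namespace Pool.Agent.V11268.ML

/-- Sum of a list of integers. -/
def sumZ (l : List ℤ) : ℤ := l.foldr (fun a b => a + b) 0

/-- Sum of absolute values. -/
def lenL (l : List ℤ) : ℕ := l.foldr (fun a b => a.natAbs + b) 0

/-- The `n`-th coefficient of a product. -/
def coefL (x : List ℤ × List ℤ) (n : ℕ) : ℤ :=
  sumZ ((List.range (n + 1)).map fun i => x.1.getD i 0 * x.2.getD (n - i) 0)

/-- Coefficient list of a product. -/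
def mulL (p q : List ℤ) : List ℤ := (List.range (p.length + q.length)).map (coefL (p, q))

/-- All ways to put an entry in `[-C, C]` in front of a list. -/
def consAll (C : ℕ) (l : List ℤ) : List (List ℤ) :=
  (List.range (2 * C + 1)).map fun c : ℕ => ((c : ℤ) - (C : ℤ)) :: l

/-- All lists of length `n` with entries in `[-C, C]`. -/
def lists (C : ℕ) : ℕ → List (List ℤ)
  | 0 => [[]]
  | n + 1 => (lists C n).flatMap (consAll C)

/-- Keep the shorter nonzero candidate. -/
def pick (cur cand : List ℤ) : List ℤ :=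
  if lenL cand = 0 then cur else if lenL cand < lenL cur then cand else cur

/-- The degree bound used by the search. -/
def bd (p : List ℤ) : ℕ := (1 + p.length * lenL p) ^ lenL p

/-- The algorithm. -/
def alg (p : List ℤ) : List ℤ :=
  ((lists ((1 + 2 * lenL p) ^ bd p) (bd p)).map (mulL p)).foldl pick p

theorem primrec_sumZ : Primrec sumZ :=
  Primrec.list_foldr (f := fun l : List ℤ => l) (g := fun _ => (0 : ℤ))
    (h := fun (_ : List ℤ) (x : ℤ × ℤ) => x.1 + x.2) Primrec.id (Primrec.const 0)
    (primrec_add.comp (Primrec.fst.comp Primrec.snd) (Primrec.snd.comp Primrec.snd))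

theorem primrec_lenL : Primrec lenL :=
  Primrec.list_foldr (f := fun l : List ℤ => l) (g := fun _ => (0 : ℕ))
    (h := fun (_ : List ℤ) (x : ℤ × ℕ) => x.1.natAbs + x.2) Primrec.id (Primrec.const 0)
    (Primrec.nat_add.comp (primrec_natAbs.comp (Primrec.fst.comp Primrec.snd))
      (Primrec.snd.comp Primrec.snd))

theorem primrec_term : Primrec₂ (fun (y : (List ℤ × List ℤ) × ℕ) (i : ℕ) =>
    y.1.1.getD i 0 * y.1.2.getD (y.2 - i) 0) :=
  primrec_mul.comp
    ((Primrec.list_getD (0 : ℤ)).comp (Primrec.fst.comp (Primrec.fst.comp Primrec.fst))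
      Primrec.snd)
    ((Primrec.list_getD (0 : ℤ)).comp (Primrec.snd.comp (Primrec.fst.comp Primrec.fst))
      (Primrec.nat_sub.comp (Primrec.snd.comp Primrec.fst) Primrec.snd))

theorem primrec_coefL : Primrec₂ coefL := by
  have h : Primrec (fun y : (List ℤ × List ℤ) × ℕ =>
      (List.range (y.2 + 1)).map fun i => y.1.1.getD i 0 * y.1.2.getD (y.2 - i) 0) :=
    Primrec.list_map (Primrec.list_range.comp (Primrec.succ.comp Primrec.snd)) primrec_term
  exact primrec_sumZ.comp h

theorem primrec_mulL : Primrec₂ mulL := by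
  have h : Primrec (fun x : List ℤ × List ℤ =>
      (List.range (x.1.length + x.2.length)).map (coefL x)) :=
    Primrec.list_map (Primrec.list_range.comp (Primrec.nat_add.comp
        (Primrec.list_length.comp Primrec.fst) (Primrec.list_length.comp Primrec.snd)))
      primrec_coefL
  exact h

theorem primrec_consAll : Primrec₂ consAll := by
  have h1 : Primrec₂ (fun (y : ℕ × List ℤ) (c : ℕ) => ((c : ℤ) - (y.1 : ℤ)) :: y.2) :=
    Primrec.list_cons.comp
      (primrec_sub.comp Primrec.snd (Primrec.fst.comp Primrec.fst))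
      (Primrec.snd.comp Primrec.fst)
  have h2 : Primrec (fun y : ℕ × List ℤ =>
      (List.range (2 * y.1 + 1)).map fun c : ℕ => ((c : ℤ) - (y.1 : ℤ)) :: y.2) :=
    Primrec.list_map (Primrec.list_range.comp (Primrec.succ.comp (Primrec.nat_mul.comp
      (Primrec.const 2) Primrec.fst))) h1
  exact h2

theorem primrec_lists : Primrec₂ lists := by
  have hstep : Primrec₂ (fun (x : ℕ × ℕ) (y : ℕ × List (List ℤ)) => y.2.flatMap (consAll x.1)) := by
    have h1 : Primrec₂ (fun (z : (ℕ × ℕ) × (ℕ × List (List ℤ))) (l : List ℤ) =>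
        consAll z.1.1 l) :=
      primrec_consAll.comp (Primrec.fst.comp (Primrec.fst.comp Primrec.fst)) Primrec.snd
    exact Primrec.list_flatMap (Primrec.snd.comp Primrec.snd) h1
  have h : Primrec (fun x : ℕ × ℕ => (Nat.rec [[]] (fun _ L => L.flatMap (consAll x.1)) x.2 :
      List (List ℤ))) :=
    Primrec.nat_rec' (f := fun x : ℕ × ℕ => x.2) (g := fun _ : ℕ × ℕ => ([[]] : List (List ℤ)))
      (h := fun (x : ℕ × ℕ) (y : ℕ × List (List ℤ)) => y.2.flatMap (consAll x.1))
      Primrec.snd (Primrec.const _) hstep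
  have h' : Primrec₂ (fun (C n : ℕ) => (Nat.rec [[]] (fun _ L => L.flatMap (consAll C)) n :
      List (List ℤ))) := h
  refine h'.of_eq fun C n => ?_
  induction n with
  | zero => rfl
  | succ n ih => rw [lists, ← ih]

theorem primrec_pick : Primrec₂ pick := by
  have h : Primrec (fun x : List ℤ × List ℤ => if lenL x.2 = 0 then x.1 else
      if lenL x.2 < lenL x.1 then x.2 else x.1) := by
    refine Primrec.ite ?_ Primrec.fst (Primrec.ite ?_ Primrec.snd Primrec.fst)
    · exact Primrec.eq.comp (primrec_lenL.comp Primrec.snd) (Primrec.const 0)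
    · exact Primrec.nat_lt.comp (primrec_lenL.comp Primrec.snd) (primrec_lenL.comp Primrec.fst)
  exact h

theorem primrec_pow : Primrec₂ (fun a b : ℕ => a ^ b) := by
  have h : Primrec (fun x : ℕ × ℕ => (Nat.rec 1 (fun _ y => y * x.1) x.2 : ℕ)) :=
    Primrec.nat_rec' (f := fun x : ℕ × ℕ => x.2) (g := fun _ : ℕ × ℕ => 1)
      (h := fun (x : ℕ × ℕ) (y : ℕ × ℕ) => y.2 * x.1)
      Primrec.snd (Primrec.const _)
      (Primrec.nat_mul.comp (Primrec.snd.comp Primrec.snd) (Primrec.fst.comp Primrec.fst))
  have h' : Primrec₂ (fun (a n : ℕ) => (Nat.rec 1 (fun _ y => y * a) n : ℕ)) := h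
  refine h'.of_eq fun a n => ?_
  induction n with
  | zero => rfl
  | succ n ih => rw [pow_succ, ← ih]

theorem primrec_bd : Primrec bd :=
  primrec_pow.comp (Primrec.nat_add.comp (Primrec.const 1)
    (Primrec.nat_mul.comp Primrec.list_length primrec_lenL)) primrec_lenL

theorem primrec_cands : Primrec (fun p : List ℤ =>
    lists ((1 + 2 * lenL p) ^ bd p) (bd p)) :=
  primrec_lists.comp (primrec_pow.comp (Primrec.nat_add.comp (Primrec.const 1)
    (Primrec.nat_mul.comp (Primrec.const 2) primrec_lenL)) primrec_bd) primrec_bd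

theorem primrec_prods : Primrec (fun p : List ℤ =>
    (lists ((1 + 2 * lenL p) ^ bd p) (bd p)).map (mulL p)) :=
  Primrec.list_map primrec_cands primrec_mulL

theorem primrec_alg : Primrec alg :=
  Primrec.list_foldl (f := fun p : List ℤ =>
      (lists ((1 + 2 * lenL p) ^ bd p) (bd p)).map (mulL p)) (g := fun p : List ℤ => p)
    (h := fun (_ : List ℤ) (y : List ℤ × List ℤ) => pick y.1 y.2)
    primrec_prods Primrec.id
    (primrec_pick.comp (Primrec.fst.comp Primrec.snd) (Primrec.snd.comp Primrec.snd))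

theorem computable_alg : Computable alg := primrec_alg.to_comp

end Pool.Agent.V11268.ML
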