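import Mathlib
import Pool.Agent.V11268.ML.Alg

set_option autoImplicit false

namespace Pool.Agent.V11268.ML

open Polynomial

/-- The polynomial with coefficient list `l` (constant term first). -/
noncomputable def polyOf (l : List ℤ) : ℤ[X] :=
  ∑ i ∈ Finset.range l.length, C (l.getD i 0) * X ^ i

theorem coeff_polyOf (l : List ℤ) (i : ℕ) : (polyOf l).coeff i = l.getD i 0 := by
  rw [polyOf, finsetSum_coeff]
  simp only [coeff_C_mul, coeff_X_pow, mul_ite, mul_one, mul_zero]
  rw [Finset.sum_ite_eq]
  split_ifs with h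
  · rfl
  · rw [Finset.mem_range, not_lt] at h
    rw [List.getD_eq_default _ _ h]

theorem natDegree_polyOf (l : List ℤ) : (polyOf l).natDegree ≤ l.length := by
  rw [natDegree_le_iff_coeff_eq_zero]
  intro n hn
  rw [coeff_polyOf, List.getD_eq_default _ _ hn.le]

theorem sumZ_map_range (n : ℕ) (f : ℕ → ℤ) :
    sumZ ((List.range n).map f) = ∑ i ∈ Finset.range n, f i := by
  have h : ∀ l : List ℤ, sumZ l = l.sum := by
    intro l; rw [sumZ, List.sum]
  rw [h]
  induction n with
  | zero => simp
  | succ n ih =>
    rw [List.range_succ, List.map_append, List.sum_append, ih, Finset.sum_range_succ]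
    simp

theorem lenL_eq (l : List ℤ) : lenL l = len (polyOf l) := by
  rw [len_eq_range (polyOf l) (l.length + 1) (Nat.lt_succ_of_le (natDegree_polyOf l)),
    Finset.sum_range_succ, coeff_polyOf, List.getD_eq_default _ _ le_rfl, Int.natAbs_zero,
    add_zero]
  have : ∀ i ∈ Finset.range l.length, ((polyOf l).coeff i).natAbs = (l.getD i 0).natAbs := by
    intro i _; rw [coeff_polyOf]
  rw [Finset.sum_congr rfl this]
  clear this
  induction l with
  | nil => rfl
  | cons a l ih =>
    rw [List.length_cons, Finset.sum_range_succ', List.getD_cons_zero, add_comm]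
    have e : lenL (a :: l) = a.natAbs + lenL l := rfl
    rw [e, ih]
    rfl

theorem polyOf_mulL (p q : List ℤ) : polyOf (mulL p q) = polyOf p * polyOf q := by
  ext n
  rw [coeff_polyOf, mulL, coeff_mul, Finset.Nat.sum_antidiagonal_eq_sum_range_succ_mk]
  by_cases hn : n < p.length + q.length
  · rw [List.getD_eq_getElem?_getD, List.getElem?_map, List.getElem?_range hn]
    simp only [Option.map_some, Option.getD_some]
    rw [coefL, sumZ_map_range]
    refine Finset.sum_congr rfl fun i _ => ?_
    rw [coeff_polyOf, coeff_polyOf]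
  · rw [List.getD_eq_default _ _ (by simpa using hn)]
    symm
    refine Finset.sum_eq_zero fun i hi => ?_
    rw [coeff_polyOf, coeff_polyOf]
    by_cases h1 : i < p.length
    · rw [List.getD_eq_default q _ (by omega), mul_zero]
    · rw [List.getD_eq_default p _ (by omega), zero_mul]

theorem mem_lists (C : ℕ) (l : List ℤ) (h : ∀ x ∈ l, x.natAbs ≤ C) : l ∈ lists C l.length := by
  induction l with
  | nil => simp [lists]
  | cons a l ih =>
    rw [List.length_cons, lists, List.mem_flatMap]
    refine ⟨l, ih fun x hx => h x (List.mem_cons_of_mem _ hx), ?_⟩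
    rw [consAll, List.mem_map]
    have ha := h a List.mem_cons_self
    refine ⟨(a + C).toNat, ?_, ?_⟩
    · rw [List.mem_range]; omega
    · congr 1; omega

theorem foldl_pick (L : List (List ℤ)) : ∀ cur : List ℤ, lenL cur ≠ 0 →
    lenL (L.foldl pick cur) ≠ 0 ∧ (L.foldl pick cur = cur ∨ L.foldl pick cur ∈ L) ∧
    lenL (L.foldl pick cur) ≤ lenL cur ∧
    ∀ c ∈ L, lenL c ≠ 0 → lenL (L.foldl pick cur) ≤ lenL c := by
  induction L with
  | nil =>
    intro cur hcur
    exact ⟨hcur, Or.inl rfl, le_rfl, fun c hc => absurd hc List.not_mem_nil⟩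
  | cons a L ih =>
    intro cur hcur
    rw [List.foldl_cons]
    have hp : lenL (pick cur a) ≠ 0 ∧ (pick cur a = cur ∨ pick cur a = a) ∧
        lenL (pick cur a) ≤ lenL cur ∧ (lenL a ≠ 0 → lenL (pick cur a) ≤ lenL a) := by
      rw [pick]
      split_ifs with h1 h2
      · exact ⟨hcur, Or.inl rfl, le_rfl, fun h => absurd h1 h⟩
      · exact ⟨h1, Or.inr rfl, h2.le, fun _ => le_rfl⟩
      · exact ⟨hcur, Or.inl rfl, le_rfl, fun _ => by omega⟩
    obtain ⟨p1, p2, p3, p4⟩ := hp
    obtain ⟨i1, i2, i3, i4⟩ := ih (pick cur a) p1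
    refine ⟨i1, ?_, i3.trans p3, ?_⟩
    · rcases i2 with h | h
      · rcases p2 with h' | h'
        · left; rw [h, h']
        · right; rw [h, h']; exact List.mem_cons_self
      · right; exact List.mem_cons_of_mem _ h
    · intro c hc hc0
      rcases List.mem_cons.mp hc with rfl | hc
      · exact i3.trans (p4 hc0)
      · exact i4 c hc hc0

/-- Bound for the coefficients of a quotient. -/
theorem coeff_quotient (P T : ℤ[X]) (hP : P.leadingCoeff ≠ 0) (L : ℕ) (hPL : len P ≤ L)
    (hF : ∀ i, ((P * T).coeff i).natAbs ≤ L) :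
    ∀ k j, T.natDegree ≤ j + k → (T.coeff j).natAbs ≤ (1 + 2 * L) ^ (k + 1) := by
  intro k
  induction k using Nat.strong_induction_on with
  | _ k ih =>
    intro j hj
    set d := P.natDegree with hd
    have hlarge : ∀ b, j < b → (T.coeff b).natAbs ≤ (1 + 2 * L) ^ k := by
      intro b hb
      by_cases hbT : T.natDegree < b
      · rw [coeff_eq_zero_of_natDegree_lt hbT]; simp
      · obtain ⟨k', hk'⟩ : ∃ k', k = k' + 1 := ⟨k - 1, by omega⟩
        have := ih (T.natDegree - b) (by omega) b (by omega)
        refine this.trans (Nat.pow_le_pow_right (by omega) (by omega))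
    have hcoef : (P * T).coeff (d + j) = P.leadingCoeff * T.coeff j +
        ∑ a ∈ Finset.range d, P.coeff a * T.coeff (d + j - a) := by
      rw [coeff_mul, Finset.Nat.sum_antidiagonal_eq_sum_range_succ_mk]
      have e : (d + j).succ = (d + 1) + j := by omega
      rw [e, Finset.sum_range_add, Finset.sum_range_succ]
      have z : ∑ x ∈ Finset.range j, P.coeff (d + 1 + x) * T.coeff (d + j - (d + 1 + x)) = 0 := by
        refine Finset.sum_eq_zero fun x _ => ?_
        rw [coeff_eq_zero_of_natDegree_lt (p := P) (by omega), zero_mul]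
      rw [z, add_zero, add_comm]
      congr 2
      congr 1; omega
    have hsum : (∑ a ∈ Finset.range d, P.coeff a * T.coeff (d + j - a)).natAbs ≤
        L * (1 + 2 * L) ^ k := by
      refine (Int.natAbs_sum_le _ _).trans ?_
      calc ∑ a ∈ Finset.range d, (P.coeff a * T.coeff (d + j - a)).natAbs
          ≤ ∑ a ∈ Finset.range d, (P.coeff a).natAbs * (1 + 2 * L) ^ k := by
            refine Finset.sum_le_sum fun a ha => ?_
            rw [Finset.mem_range] at ha
            rw [Int.natAbs_mul]
            exact Nat.mul_le_mul_left _ (hlarge _ (by omega))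
        _ = (∑ a ∈ Finset.range d, (P.coeff a).natAbs) * (1 + 2 * L) ^ k := by
            rw [Finset.sum_mul]
        _ ≤ L * (1 + 2 * L) ^ k := by
            apply Nat.mul_le_mul_right
            refine le_trans ?_ hPL
            rw [len_eq_range P (d + 1) (by omega)]
            exact Finset.sum_le_sum_of_subset (Finset.range_subset_range.mpr (by omega))
    have hF' := hF (d + j)
    have hlc : 1 ≤ P.leadingCoeff.natAbs := by
      rw [Nat.one_le_iff_ne_zero, Int.natAbs_ne_zero]; exact hP
    have h1 : (T.coeff j).natAbs ≤ (P.leadingCoeff * T.coeff j).natAbs := by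
      rw [Int.natAbs_mul]; exact Nat.le_mul_of_pos_left _ hlc
    have h2 : (P.leadingCoeff * T.coeff j).natAbs ≤ L + L * (1 + 2 * L) ^ k := by
      have e : P.leadingCoeff * T.coeff j = (P * T).coeff (d + j) -
          ∑ a ∈ Finset.range d, P.coeff a * T.coeff (d + j - a) := by rw [hcoef]; ring
      rw [e]
      exact (Int.natAbs_sub_le _ _).trans (Nat.add_le_add hF' hsum)
    have h3 : 1 ≤ (1 + 2 * L) ^ k := Nat.one_le_pow _ _ (by omega)
    calc (T.coeff j).natAbs ≤ L + L * (1 + 2 * L) ^ k := h1.trans h2
      _ ≤ L * (1 + 2 * L) ^ k + L * (1 + 2 * L) ^ k := by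
          apply Nat.add_le_add_right; exact Nat.le_mul_of_pos_right _ h3
      _ ≤ (1 + 2 * L) ^ (k + 1) := by
          rw [pow_succ]
          have : (1 + 2 * L) ^ k * (1 + 2 * L) = (1 + 2 * L) ^ k + 2 * (L * (1 + 2 * L) ^ k) := by
            ring
          rw [this]; omega

end Pool.Agent.V11268.ML
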